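import Mathlib

/-!
# MP_451208_an: a topologically mixing subshift over `ℤ` that is not surjunctive

The alphabet is `Bool × Bool × Bool`; a configuration is a triple of particle tracks `(r, s, l)`.
The subshift `X` consists of all configurations for which there are no `i` and `k ≥ 1` with
`r (i - k) = s i = l (i + k) = 1`: if the `r`-particles move to the right and the `l`-particles
move to the left with speed one, there is no triple collision at a time `k ≥ 1`. One step of this
motion is an injective cellular automaton on `X`; it misses every configuration with a triple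
collision at time `0`.
-/

set_option autoImplicit false

namespace Pool.Agent.Results.MP_451208_an.MixingNotSurjunctive

/-- the shift, `σ(x)_n = x_{n+1}` -/
def shift {A : Type} (x : ℤ → A) : ℤ → A := fun n => x (n + 1)

/-- a subshift over `ℤ`: a closed set of configurations with `σ(X) = X` -/
def IsSubshift {A : Type} [TopologicalSpace A] (X : Set (ℤ → A)) : Prop :=
  IsClosed X ∧ shift '' X = X

/-- topological mixing: for all nonempty relatively open subsets `U ∩ X`, `V ∩ X` of `X` there
is `N` such that `σ^n (U ∩ X)` meets `V ∩ X` for all `n ≥ N` -/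
def IsMixing {A : Type} [TopologicalSpace A] (X : Set (ℤ → A)) : Prop :=
  ∀ U V : Set (ℤ → A), IsOpen U → IsOpen V → (U ∩ X).Nonempty → (V ∩ X).Nonempty →
    ∃ N : ℕ, ∀ n : ℕ, N ≤ n → ((shift^[n] '' (U ∩ X)) ∩ (V ∩ X)).Nonempty

/-- a cellular automaton on `X`: a continuous self-map of `X` that commutes with the shift -/
def IsCA {A : Type} [TopologicalSpace A] (X : Set (ℤ → A)) (τ : X → X) : Prop :=
  Continuous τ ∧ ∀ x y : X, (y : ℤ → A) = shift x → (τ y : ℤ → A) = shift (τ x)

/-! ### the example -/

/-- the alphabet: one bit for each of the three tracks -/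
abbrev B : Type := Bool × Bool × Bool

/-- no triple collision at a time `k ≥ 1` -/
def X : Set (ℤ → B) :=
  {x | ∀ i k : ℤ, 1 ≤ k →
    ¬ ((x (i - k)).1 = true ∧ (x i).2.1 = true ∧ (x (i + k)).2.2 = true)}

theorem isClosed_X : IsClosed X := by
  have h : X = ⋂ i : ℤ, ⋂ k : ℤ, ⋂ _ : 1 ≤ k,
      (fun x : ℤ → B => (x (i - k), x i, x (i + k))) ⁻¹'
        {p | ¬ (p.1.1 = true ∧ p.2.1.2.1 = true ∧ p.2.2.2.2 = true)} := by
    ext x
    simp [X]
  rw [h]
  refine isClosed_iInter fun i => isClosed_iInter fun k => isClosed_iInter fun _ => ?_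
  exact (isClosed_discrete _).preimage (by fun_prop)

theorem shift_mem {x : ℤ → B} (hx : x ∈ X) : shift x ∈ X := by
  intro i k hk h
  have := hx (i + 1) k hk
  apply this
  simp only [shift] at h
  have e1 : i - k + 1 = i + 1 - k := by ring
  have e2 : i + k + 1 = i + 1 + k := by ring
  rw [e1, e2] at h
  exact h

theorem shift_image : shift '' X = X := by
  apply Set.Subset.antisymm
  · rintro _ ⟨x, hx, rfl⟩
    exact shift_mem hx
  · intro x hx
    refine ⟨fun n => x (n - 1), ?_, ?_⟩
    · intro i k hk h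
      have := hx (i - 1) k hk
      apply this
      have e1 : i - k - 1 = i - 1 - k := by ring
      have e2 : i + k - 1 = i - 1 + k := by ring
      simp only at h
      rw [e1, e2] at h
      exact h
    · funext n
      simp [shift]

theorem shift_iterate {A : Type} (n : ℕ) (x : ℤ → A) (m : ℤ) :
    shift^[n] x m = x (m + n) := by
  induction n generalizing x m with
  | zero => simp
  | succ n ih =>
    rw [Function.iterate_succ_apply, ih]
    simp only [shift]
    congr 1
    push_cast
    ring

theorem iterate_mem {x : ℤ → B} (hx : x ∈ X) (n : ℕ) : shift^[n] x ∈ X := by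
  induction n generalizing x with
  | zero => exact hx
  | succ n ih =>
    rw [Function.iterate_succ_apply]
    exact ih (shift_mem hx)

/-- the background symbol -/
def o : B := (false, false, false)

/-- the windows of `x` and of `y` around `0` and `n`, on an empty background -/
def glue (M n : ℤ) (x y : ℤ → B) : ℤ → B := fun m =>
  if |m| ≤ M then x m else if |m - n| ≤ M then y (m - n) else o

theorem glue_mem {M n : ℤ} {x y : ℤ → B} (hx : x ∈ X) (hy : y ∈ X)
    (hn : 4 * M < n) : glue M n x y ∈ X := by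
  intro i k hk h
  obtain ⟨h1, h2, h3⟩ := h
  -- each of the three places lies in one of the two windows
  have key : ∀ m : ℤ, glue M n x y m ≠ o →
      (|m| ≤ M ∧ glue M n x y m = x m) ∨ (¬ |m| ≤ M ∧ |m - n| ≤ M ∧ glue M n x y m = y (m - n)) := by
    intro m hm
    unfold glue at hm ⊢
    by_cases c1 : |m| ≤ M
    · left; exact ⟨c1, by rw [if_pos c1]⟩
    · right
      rw [if_neg c1] at hm ⊢
      by_cases c2 : |m - n| ≤ M
      · exact ⟨c1, c2, by rw [if_pos c2]⟩
      · rw [if_neg c2] at hm
        exact absurd rfl hm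
  have n1 : glue M n x y (i - k) ≠ o := by intro h; rw [h] at h1; simp [o] at h1
  have n2 : glue M n x y i ≠ o := by intro h; rw [h] at h2; simp [o] at h2
  have n3 : glue M n x y (i + k) ≠ o := by intro h; rw [h] at h3; simp [o] at h3
  rcases key _ n1 with ⟨a1, b1⟩ | ⟨a1, a1', b1⟩ <;>
    rcases key _ n2 with ⟨a2, b2⟩ | ⟨a2, a2', b2⟩ <;>
    rcases key _ n3 with ⟨a3, b3⟩ | ⟨a3, a3', b3⟩
  · rw [b1] at h1; rw [b2] at h2; rw [b3] at h3
    exact hx i k hk ⟨h1, h2, h3⟩
  · rw [abs_le] at *; omega
  · rw [abs_le] at *; omega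
  · rw [abs_le] at *; omega
  · rw [abs_le] at *; omega
  · rw [abs_le] at *; omega
  · rw [abs_le] at *; omega
  · rw [b1] at h1; rw [b2] at h2; rw [b3] at h3
    have e1 : i - k - n = i - n - k := by ring
    have e2 : i + k - n = i - n + k := by ring
    rw [e1] at h1
    rw [e2] at h3
    exact hy (i - n) k hk ⟨h1, h2, h3⟩

theorem exists_window {U : Set (ℤ → B)} (hU : IsOpen U) {x : ℤ → B} (hx : x ∈ U) :
    ∃ M : ℕ, ∀ z : ℤ → B, (∀ m : ℤ, |m| ≤ M → z m = x m) → z ∈ U := by
  rw [isOpen_pi_iff] at hU
  obtain ⟨I, u, hu, hsub⟩ := hU x hx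
  refine ⟨I.sup Int.natAbs, fun z hz => hsub ?_⟩
  intro i hi
  have h1 : i.natAbs ≤ I.sup Int.natAbs := Finset.le_sup (f := Int.natAbs) hi
  have h2 : |i| ≤ ((I.sup Int.natAbs : ℕ) : ℤ) := by
    rw [Int.abs_eq_natAbs]
    exact_mod_cast h1
  rw [hz i h2]
  exact (hu i hi).2

theorem mixing_X : IsMixing X := by
  rintro U V hU hV ⟨x, hxU, hxX⟩ ⟨y, hyV, hyX⟩
  obtain ⟨M1, hM1⟩ := exists_window hU hxU
  obtain ⟨M2, hM2⟩ := exists_window hV hyV
  set M := max M1 M2 with hM
  refine ⟨4 * M + 1, fun n hn => ?_⟩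
  have hn' : 4 * (M : ℤ) < n := by
    have : 4 * M < n := by omega
    exact_mod_cast this
  set z := glue M n x y with hz
  have hzX : z ∈ X := glue_mem hxX hyX hn'
  have l1 : (M1 : ℤ) ≤ M := by exact_mod_cast le_max_left M1 M2
  have l2 : (M2 : ℤ) ≤ M := by exact_mod_cast le_max_right M1 M2
  refine ⟨shift^[n] z, ⟨z, ⟨hM1 z ?_, hzX⟩, rfl⟩, hM2 _ ?_, iterate_mem hzX n⟩
  · intro m hm
    rw [hz]
    unfold glue
    rw [if_pos (le_trans hm l1)]
  · intro m hm
    rw [shift_iterate, hz]
    unfold glue
    have c1 : ¬ |m + (n : ℤ)| ≤ M := by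
      intro hc
      have hm' : |m| ≤ (M : ℤ) := le_trans hm l2
      rw [abs_le] at hc hm'
      omega
    have e : m + (n : ℤ) - n = m := by ring
    rw [if_neg c1, e, if_pos (le_trans hm l2)]

/-- one step of the motion of the particles -/
def step (x : ℤ → B) : ℤ → B := fun n => ((x (n - 1)).1, (x n).2.1, (x (n + 1)).2.2)

theorem step_mem {x : ℤ → B} (hx : x ∈ X) : step x ∈ X := by
  intro i k hk h
  apply hx i (k + 1) (by omega)
  simp only [step] at h
  have e1 : i - k - 1 = i - (k + 1) := by ring
  have e2 : i + k + 1 = i + (k + 1) := by ring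
  rw [e1, e2] at h
  exact h

theorem continuous_step : Continuous step := by
  unfold step
  fun_prop

theorem step_injective : Function.Injective step := by
  intro x y h
  funext n
  have h1 := congrFun h (n + 1)
  have h2 := congrFun h n
  have h3 := congrFun h (n - 1)
  simp only [step, Prod.mk.injEq, add_sub_cancel_right, sub_add_cancel] at h1 h2 h3
  exact Prod.ext h1.1 (Prod.ext h2.2.1 h3.2.2)

/-- the configuration with a triple collision at time `0` -/
def e0 : ℤ → B := fun n => if n = 0 then (true, true, true) else o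

theorem e0_mem : e0 ∈ X := by
  rintro i k hk ⟨h1, h2, h3⟩
  have a1 : i - k = 0 := by
    by_contra hc
    simp [e0, hc, o] at h1
  have a2 : i = 0 := by
    by_contra hc
    simp [e0, hc, o] at h2
  omega

/-- **A topologically mixing subshift over `ℤ` that is not surjunctive.** -/
theorem result : ∃ (A : Type) (_ : Finite A) (_ : TopologicalSpace A) (_ : DiscreteTopology A)
    (X : Set (ℤ → A)), IsSubshift X ∧ IsMixing X ∧
      ∃ τ : X → X, IsCA X τ ∧ Function.Injective τ ∧ ¬ Function.Surjective τ := by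
  refine ⟨B, inferInstance, inferInstance, inferInstance, X, ⟨isClosed_X, shift_image⟩,
    mixing_X, fun x => ⟨step x, step_mem x.2⟩, ⟨?_, ?_⟩, ?_, ?_⟩
  · exact (continuous_step.comp continuous_subtype_val).subtype_mk _
  · rintro ⟨x, hx⟩ ⟨y, hy⟩ hxy
    simp only at hxy ⊢
    subst hxy
    funext n
    simp only [step, shift]
    have e1 : n - 1 + 1 = n + 1 - 1 := by ring
    rw [e1]
  · rintro ⟨x, hx⟩ ⟨y, hy⟩ h
    simp only [Subtype.mk.injEq] at h
    exact Subtype.ext (step_injective h)
  · intro hs
    obtain ⟨⟨x, hx⟩, h⟩ := hs ⟨e0, e0_mem⟩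
    have h' : step x = e0 := congrArg Subtype.val h
    have h0 := congrFun h' 0
    simp only [step, e0, if_true, Prod.mk.injEq] at h0
    exact hx 0 1 le_rfl ⟨h0.1, h0.2.1, h0.2.2⟩

end Pool.Agent.Results.MP_451208_an.MixingNotSurjunctive
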